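import Pool.Agent.TH951.FE.Final

/-!
# Rational maps with many preperiodic points and little bad reduction outside `S`

For all `d ≥ 2` and `D` there is ONE bound `N` such that for every finite set `S` of primes only
finitely many classes of rational maps of degree `d`, defined over number fields of degree at most
`D` and with potentially good reduction outside `S`, have `N` or more preperiodic points over their
field of definition.
-/

set_option autoImplicit false

namespace Pool.Agent.Results.MP_13bc7b_nt.FinitelyManyExceptions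

open NumberField Pool.Agent.H951R3.PB

/-- The reduction of `f` outside `M` is good up to the proportion `δ`: for some extensions `wi`, `wf`
of the places of `K` to the algebraic closure and some finite set `T` of finite places outside which
`f` has potentially good reduction, the sum of the sizes `1 + max (msz d f w) 0` over the places of
`T` not dividing `M` is at most `δ` times the sum of the sizes over the infinite places and over the
places of `T` dividing `M`. -/
def LittleBad {K : Type} [Field K] [NumberField K] (δ : ℝ) (M d : ℕ)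
    (f : Fin 2 → MvPolynomial (Fin 2) K) : Prop :=
  ∃ (wi : InfinitePlace K → AbsoluteValue (AlgebraicClosure K) ℝ)
    (wf : FinitePlace K → AbsoluteValue (AlgebraicClosure K) ℝ) (T : Finset (FinitePlace K)),
    (∀ v, Ext v.val (wi v)) ∧ (∀ v, Ext v.val (wf v)) ∧ (∀ v, v ∉ T → PotGood v.val d f) ∧
    ∑ v ∈ T.filter (fun v => v.val (M : K) = 1), (1 + max (msz d f (wf v)) 0) ≤
      δ * (∑ v : InfinitePlace K, (v.mult : ℝ) * (1 + max (msz d f (wi v)) 0) +
        ∑ v ∈ T.filter (fun v => v.val (M : K) ≠ 1), (1 + max (msz d f (wf v)) 0))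

/-- For all `d ≥ 2` and `D` there are `N` and `δ > 0` such that for every integer `M ≠ 0` there is a
finite set `Φ` of pairs of forms over `ℚ̄` such that: if `K` is a number field of degree at most `D`
and `f` is a morphism of degree `d` of the projective line over `K` which has potentially good
reduction at all finite places not dividing `M`, or more generally whose reduction outside `M` is
good up to the proportion `δ`, and if `f` has at least `N` preperiodic points in the projective line
over `K`, then for every embedding `σ` of `K` in `ℚ̄` the map `f` is conjugate over `K` to a map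
given by forms whose image under `σ` is in `Φ`. -/
theorem result (d : ℕ) (hd : 2 ≤ d) (D : ℕ) : ∃ (N : ℕ) (δ : ℝ), 0 < δ ∧ ∀ M : ℕ, M ≠ 0 →
    ∃ Φ : Set (Fin 2 → MvPolynomial (Fin 2) (AlgebraicClosure ℚ)), Φ.Finite ∧
    ∀ (K : Type) [Field K] [NumberField K], Module.finrank ℚ K ≤ D →
    ∀ f : Fin 2 → MvPolynomial (Fin 2) K, (∀ i, (f i).IsHomogeneous d) →
      (∀ x : Fin 2 → AlgebraicClosure K, (∀ i, MvPolynomial.aeval x (f i) = 0) → x = 0) →
    ((∀ v : FinitePlace K, v.val (M : K) = 1 → PotGood v.val d f) ∨ LittleBad δ M d f) →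
    ∀ X : Finset (Fin 2 → K), (∀ x ∈ X, x ≠ 0) →
      (∀ x ∈ X, ∀ y ∈ X, ∀ c : K, x = c • y → x = y) →
      (∀ x ∈ X, ∃ m n : ℕ, m < n ∧ ∃ c : K, c ≠ 0 ∧
        (fun v : Fin 2 → K => fun i => MvPolynomial.eval v (f i))^[n] x =
          c • (fun v : Fin 2 → K => fun i => MvPolynomial.eval v (f i))^[m] x) →
      N ≤ X.card →
    ∀ σ : K →+* AlgebraicClosure ℚ,
      ∃ (g : Fin 2 → MvPolynomial (Fin 2) K) (L : Matrix (Fin 2) (Fin 2) K) (c : K),
        L.det ≠ 0 ∧ c ≠ 0 ∧ (∀ i, (g i).IsHomogeneous d) ∧
        (∀ x : Fin 2 → K, c • L.mulVec (fun i => MvPolynomial.eval x (f i)) =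
          fun i => MvPolynomial.eval (L.mulVec x) (g i)) ∧
        (fun i => (g i).map σ) ∈ Φ := by
  classical
  obtain ⟨N, δ, η, hδ, hη, h⟩ := TH951.FE.final d hd D
  refine ⟨N, δ, hδ, fun M hM => ?_⟩
  obtain ⟨Φ, hΦ, h⟩ := h M hM
  refine ⟨Φ, hΦ, ?_⟩
  intro K _ _ hK f hf hz hred X hX0 hX hpre hN σ
  have hX' : ∀ x ∈ X, ∀ y ∈ X, x ≠ y → wd x y ≠ 0 := by
    intro x hx y hy hxy hw
    obtain ⟨c, -, hc⟩ := G6aux.parallel (hX0 y hy) (hX0 x hx) (by
      have h1 : wd y x = -wd x y := by unfold wd; ring
      rw [h1, hw, neg_zero])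
    exact hxy (hX x hx y hy c hc)
  have h0 : rs f d ≠ 0 := rs_ne_of_noZero (by omega) hf hz
  -- the general case
  have hgen : LittleBad δ M d f →
      ∃ (g : Fin 2 → MvPolynomial (Fin 2) K) (L : Matrix (Fin 2) (Fin 2) K) (c : K),
        L.det ≠ 0 ∧ c ≠ 0 ∧ (∀ i, (g i).IsHomogeneous d) ∧
        (∀ x : Fin 2 → K, c • L.mulVec (fun i => MvPolynomial.eval x (f i)) =
          fun i => MvPolynomial.eval (L.mulVec x) (g i)) ∧
        (fun i => (g i).map σ) ∈ Φ := by
    rintro ⟨wi, wf, T, hwi, hwf, hT, hs⟩
    have hs1 : ∀ w, 0 ≤ 1 + max (msz d f w) 0 := fun w => by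
      have : 0 ≤ max (msz d f w) 0 := le_max_right _ _
      linarith
    have hbig : 0 ≤ TH951.FE.big d f wi wf (T.filter fun v => v.val (M : K) ≠ 1) :=
      add_nonneg (Finset.sum_nonneg fun v _ => mul_nonneg (Nat.cast_nonneg _) (hs1 _))
        (Finset.sum_nonneg fun v _ => hs1 _)
    exact h K hK f hf hz wi hwi wf hwf T hT hs X hN hX0 hX' (fun x hx => by
      rw [hcan_pre hd hf h0 (hX0 x hx) (hpre x hx)]
      positivity) σ
  rcases hred with hred | hred
  · apply hgen
    choose wi hwi using fun v : InfinitePlace K => exists_ext_inf v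
    choose wf hwf using fun v : FinitePlace K => exists_ext_fin v
    have hM0 : (M : K) ≠ 0 := by exact_mod_cast hM
    have hfin := F4_finite_ne hM0
    refine ⟨wi, wf, hfin.toFinset, hwi, hwf, fun v hv => hred v ?_, ?_⟩
    · by_contra h1
      exact hv (by rw [Set.Finite.mem_toFinset]; exact h1)
    · have h1 : hfin.toFinset.filter (fun v => v.val (M : K) = 1) = ∅ := by
        rw [Finset.filter_eq_empty_iff]
        intro v hv
        rw [Set.Finite.mem_toFinset] at hv
        exact hv
      rw [h1, Finset.sum_empty]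
      refine mul_nonneg hδ.le (add_nonneg (Finset.sum_nonneg fun v _ => ?_)
        (Finset.sum_nonneg fun v _ => ?_))
      · have : 0 ≤ max (msz d f (wi v)) 0 := le_max_right _ _
        positivity
      · have : 0 ≤ max (msz d f (wf v)) 0 := le_max_right _ _
        positivity
  · exact hgen hred

end Pool.Agent.Results.MP_13bc7b_nt.FinitelyManyExceptions
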