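import Pool.Agent.TH377.Dyn.PN
import Pool.Agent.TH377.Dyn.Box

/-!
# MP_13bc7b_nt: integral perturbations of split polynomial maps

Let `K` be a number field, `d ≥ 2`, `b, c₀, …, c_d ∈ O_K` and `F = c₀ + c₁ x + … + c_d x^d`.  For
every `N ≥ 1` and all forms `G₁, …, G_N` of degree `d - 1` in `x₀, …, x_N` with coefficients in `O_K`
we consider the endomorphism

  `φ_G = (b x₀^d : F(x₁, x₀) + b x₀ G₁(x) : … : F(x_N, x₀) + b x₀ G_N(x))`

of `P^N`, where `F(x, y) = c₀ y^d + c₁ x y^(d-1) + … + c_d x^d`.  On the affine space this is the map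
`(y_i) ↦ (F(y_i)/b + G_i(1, y))`: the split map given by `F/b`, perturbed by arbitrary integral
polynomials of degree less than `d`.

We prove that for 100% of the vectors `(b, c₀, …, c_d)`, for ALL `N ≥ 1`, ALL `G` and ALL finite
extensions `L` of `K` with `d ∤ [L : K]`, the preperiodic points of `φ_G` in `P^N(L)` are exactly the
points `(0 : x₁ : … : x_N)` whose coordinates are, after multiplication by a common factor, equal to
`0` or roots of unity.  So there are at most `(1 + w)^N` of them, where `w` is the number of the roots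
of unity of `L`; this bound depends only on `N` and `L` (and `w` is bounded in terms of `[L : ℚ]`), not
on the map.  The exceptional set of vectors does not depend on `N`, `G` or `L`, and the sizes of `G`
and `[L : K]` are not bounded.  It has density zero in boxes (with respect to any integral basis), and
in a stronger sense: for every `ε > 0` there is an ideal `I ≠ 0` such that the exceptional vectors lie
in at most `ε #(O_K/I)^(d+2)` residue classes modulo `I`.

Proof.  Let `v` be a prime of `K` that divides `b`, such that `F` is irreducible of degree `d` modulo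
`v`.  If `d ∤ [L : K]`, then there is a place `w` of `L` above `v` whose residue degree is not
divisible by `d`, because `∑ e(w|v) f(w|v) = [L : K]`; so `F` has no root in the residue field of `w`.
For `x ∈ L^(N+1)` with `x₀ ≠ 0` let `μ(x) = max |x_i|_w / |x₀|_w ≥ 1`.  If `μ(x) = 1`, then `F(y_i)` is a
unit at `w` for `y_i = x_i/x₀`, and `μ(φ_G(x)) ≥ 1/|b|_w > 1`.  If `μ(x) = |y_i|_w > 1`, then
`|F(y_i)/b|_w = μ(x)^d / |b|_w` is larger than `|G_i(1, y)|_w ≤ μ(x)^(d-1)`, and `μ(φ_G(x)) > μ(x)`.  So
these points are wandering.  On the hyperplane `x₀ = 0` the map is `(x₁^d : … : x_N^d)`.  The prime `v`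
exists for almost all vectors, because the conditions hold for a proportion of at least
`(1/4d) (1/N v - 1/(N v)²)` of all vectors modulo `v²`, and the sum of the `1/N v` diverges.
-/

set_option autoImplicit false
set_option maxHeartbeats 400000

open NumberField Filter Topology

namespace Pool.Agent.Results.MP_13bc7b_nt.IntegralPerturbations

universe u v w

/-- The `N + 1` forms `b x₀^d` and `∑ c_j x_i^j x₀^(d-j) + b x₀ G_i(x)`, `i = 1, …, N`, with
`b = c 0` and `c_j = c (j + 1)`. -/
noncomputable def endo {R : Type u} [CommRing R] {d N : ℕ} (c : Fin (d + 2) → R)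
    (G : Fin N → MvPolynomial (Fin (N + 1)) R) : Fin (N + 1) → MvPolynomial (Fin (N + 1)) R :=
  Fin.cons (MvPolynomial.C (c 0) * MvPolynomial.X 0 ^ d) fun i =>
    (∑ j : Fin (d + 1), MvPolynomial.C (c j.succ) *
      (MvPolynomial.X i.succ ^ (j : ℕ) * MvPolynomial.X 0 ^ (d - j))) +
    MvPolynomial.C (c 0) * MvPolynomial.X 0 * G i

/-- The self-map of `L^(N+1)` given by polynomials `F` with coefficients in the ring of integers of
the subfield `K` of `L`. -/
noncomputable def selfMap {K : Type u} [Field K] (L : Type v) [Field L] [Algebra K L] {N : ℕ}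
    (F : Fin (N + 1) → MvPolynomial (Fin (N + 1)) (𝓞 K)) (x : Fin (N + 1) → L) : Fin (N + 1) → L :=
  fun i => MvPolynomial.eval x
    (MvPolynomial.map ((algebraMap K L).comp (algebraMap (𝓞 K) K)) (F i))

/-- The point of `P^N(L)` with the homogeneous coordinates `x` is preperiodic for the map given by
`f`: two different iterates are proportional. -/
def IsPreperiodic {L : Type v} [Field L] {N : ℕ} (f : (Fin (N + 1) → L) → Fin (N + 1) → L)
    (x : Fin (N + 1) → L) : Prop :=
  ∃ m n : ℕ, m < n ∧ ∃ t : L, t ≠ 0 ∧ f^[n] x = t • f^[m] x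

/-- The `x_i` are, up to a common factor, equal to `0` or roots of unity, and `x₀ = 0`. -/
def Cyclotomic {L : Type v} [Field L] {N : ℕ} (x : Fin (N + 1) → L) : Prop :=
  x 0 = 0 ∧ ∃ s : L, s ≠ 0 ∧ ∀ i, s * x i = 0 ∨ ∃ k : ℕ, 0 < k ∧ (s * x i) ^ k = 1

/-- The number of preperiodic points is at most `(1 + w)^N`, `w` the number of roots of unity in `L`:
every finite set of pairwise non proportional nonzero vectors which are preperiodic has at most
`(1 + w)^N` elements. -/
def Bounded {L : Type v} [Field L] {N : ℕ} (f : (Fin (N + 1) → L) → Fin (N + 1) → L) : Prop :=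
  ∀ X : Finset (Fin (N + 1) → L), (∀ x ∈ X, x ≠ 0) →
    (∀ x ∈ X, ∀ y ∈ X, ∀ t : L, x = t • y → x = y) → (∀ x ∈ X, IsPreperiodic f x) →
      X.card ≤ (1 + {u : L | ∃ k : ℕ, 0 < k ∧ u ^ k = 1}.ncard) ^ N

/-- The vectors `c = (b, c₀, …, c_d)` of integers of `K` that do not have the following property:
for all `N ≥ 1` and all forms `G₁, …, G_N` of degree `d - 1` over `O_K` the `N + 1` polynomials
`endo c G` are forms of degree `d` without common zeros, and for all finite extensions `L` of `K` with
`d ∤ [L : K]`, the preperiodic points in `P^N(L)` are the cyclotomic points with `x₀ = 0`, and their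
number is at most `(1 + w)^N`, `w` the number of roots of unity in `L`. -/
def Exceptional (K : Type u) [Field K] (d : ℕ) : Set (Fin (d + 2) → 𝓞 K) :=
  {c | ¬ ∀ (N : ℕ) (G : Fin N → MvPolynomial (Fin (N + 1)) (𝓞 K)), 1 ≤ N →
    (∀ i, (G i).IsHomogeneous (d - 1)) →
      (∀ i, (endo c G i).IsHomogeneous d) ∧
      (∀ x : Fin (N + 1) → AlgebraicClosure K,
        selfMap (AlgebraicClosure K) (endo c G) x = 0 → x = 0) ∧
      ∀ (L : Type v) [Field L] [Algebra K L] [FiniteDimensional K L],
        ¬ d ∣ Module.finrank K L →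
        (∀ x : Fin (N + 1) → L, x ≠ 0 →
          (IsPreperiodic (selfMap L (endo c G)) x ↔ Cyclotomic x)) ∧
        Bounded (selfMap L (endo c G))}

/-- Density zero: for every `ε > 0` there is an ideal `I ≠ 0` such that `E` lies in at most
`ε #(O_K/I)ᴺ` residue classes modulo `I`. -/
def DensityZero {K : Type u} [Field K] {N : ℕ} (E : Set (Fin N → 𝓞 K)) : Prop :=
  ∀ ε : ℝ, 0 < ε → ∃ I : Ideal (𝓞 K), I ≠ ⊥ ∧
    (Set.ncard ((fun (t : Fin N → 𝓞 K) i => Ideal.Quotient.mk I (t i)) '' E) : ℝ) ≤
      ε * (Nat.card (𝓞 K ⧸ I) : ℝ) ^ N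

/-- The vectors all of whose entries have coordinates of absolute value at most `H` in the integral
basis `ω`. -/
def Box {K : Type u} [Field K] {J : Type w} (ω : Module.Basis J ℤ (𝓞 K)) (N H : ℕ) :
    Set (Fin N → 𝓞 K) :=
  {c | ∀ i j, |ω.repr (c i) j| ≤ (H : ℤ)}

section proof

open IsDedekindDomain Pool.Agent.TH377.Dyn Pool.Agent.TH377.Sup

lemma endo_hom {R : Type u} [CommRing R] {d N : ℕ} (hd : 1 ≤ d) (c : Fin (d + 2) → R)
    (G : Fin N → MvPolynomial (Fin (N + 1)) R) (hG : ∀ i, (G i).IsHomogeneous (d - 1))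
    (i : Fin (N + 1)) : (endo c G i).IsHomogeneous d := by
  refine Fin.cases ?_ (fun i => ?_) i
  · change (MvPolynomial.C (c 0) * MvPolynomial.X 0 ^ d :
      MvPolynomial (Fin (N + 1)) R).IsHomogeneous d
    have h1 := (MvPolynomial.isHomogeneous_X R (0 : Fin (N + 1))).pow d
    have h3 := (MvPolynomial.isHomogeneous_C (Fin (N + 1)) (c 0)).mul h1
    simpa using h3
  · change ((∑ j : Fin (d + 1), MvPolynomial.C (c j.succ) *
      (MvPolynomial.X i.succ ^ (j : ℕ) * MvPolynomial.X 0 ^ (d - j))) +
      MvPolynomial.C (c 0) * MvPolynomial.X 0 * G i).IsHomogeneous d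
    refine MvPolynomial.IsHomogeneous.add (MvPolynomial.IsHomogeneous.sum _ _ _ fun j _ => ?_) ?_
    · have g1 := (MvPolynomial.isHomogeneous_X R (i.succ : Fin (N + 1))).pow (j : ℕ)
      have g2 := (MvPolynomial.isHomogeneous_X R (0 : Fin (N + 1))).pow (d - (j : ℕ))
      have h3 := (MvPolynomial.isHomogeneous_C (Fin (N + 1)) (c j.succ)).mul (g1.mul g2)
      have h2 : 0 + (1 * (j : ℕ) + 1 * (d - (j : ℕ))) = d := by
        have := j.2
        omega
      rwa [h2] at h3
    · have g1 := (MvPolynomial.isHomogeneous_C (Fin (N + 1)) (c 0)).mul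
        (MvPolynomial.isHomogeneous_X R (0 : Fin (N + 1)))
      have h3 := g1.mul (hG i)
      have h2 : 0 + 1 + (d - 1) = d := by omega
      rwa [h2] at h3

lemma selfMap_eq {K : Type u} [Field K] {L : Type v} [Field L] [Algebra K L] {d N : ℕ}
    (c : Fin (d + 2) → 𝓞 K) (G : Fin N → MvPolynomial (Fin (N + 1)) (𝓞 K)) :
    selfMap L (endo c G) = pm (fun j : Fin (d + 1) =>
      ((num c).map ((algebraMap K L).comp (algebraMap (𝓞 K) K))).coeff j)
      (((algebraMap K L).comp (algebraMap (𝓞 K) K)) (c 0))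
      (fun i => MvPolynomial.map ((algebraMap K L).comp (algebraMap (𝓞 K) K)) (G i)) := by
  funext x i
  refine Fin.cases ?_ (fun i => ?_) i
  · rw [pm_zero]
    change MvPolynomial.eval x (MvPolynomial.map _ (MvPolynomial.C (c 0) *
      MvPolynomial.X 0 ^ d)) = _
    simp
  · rw [pm_succ]
    change MvPolynomial.eval x (MvPolynomial.map _ ((∑ j : Fin (d + 1), MvPolynomial.C (c j.succ) *
      (MvPolynomial.X i.succ ^ (j : ℕ) * MvPolynomial.X 0 ^ (d - j))) +
      MvPolynomial.C (c 0) * MvPolynomial.X 0 * G i)) = _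
    have h1 : ∀ j : Fin (d + 1), (num c).coeff j = c j.succ := fun j =>
      pol_coeff (fun i : Fin (d + 1) => c i.succ) j
    simp only [map_add, map_sum, map_mul, map_pow, MvPolynomial.map_C, MvPolynomial.map_X,
      MvPolynomial.eval_C, MvPolynomial.eval_X, Polynomial.coeff_map, h1]

/-- the bound for the number of points -/
lemma bounded_of {L : Type v} [Field L] [NumberField L] {N : ℕ}
    (f : (Fin (N + 1) → L) → Fin (N + 1) → L)
    (h : ∀ x : Fin (N + 1) → L, x ≠ 0 → (IsPreperiodic f x ↔ Cyclotomic x)) : Bounded f := by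
  classical
  intro X hX0 hX1 hX2
  have hfin : {u : L | ∃ k : ℕ, 0 < k ∧ u ^ k = 1}.Finite := by
    refine (NumberField.Embeddings.finite_of_norm_le L ℂ 1).subset ?_
    rintro u ⟨k, hk, hu⟩
    refine ⟨⟨Polynomial.X ^ k - 1, Polynomial.monic_X_pow_sub_C 1 hk.ne', by simp [hu]⟩,
      fun φ => ?_⟩
    have h1 : ‖φ u‖ ^ k = 1 := by rw [← norm_pow, ← map_pow, hu, map_one, norm_one]
    exact le_of_eq ((pow_eq_one_iff_of_nonneg (norm_nonneg _) hk.ne').1 h1)
  have hcyc : ∀ x ∈ X, ∃ s : L, s ≠ 0 ∧ x 0 = 0 ∧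
      ∀ i, s * x i = 0 ∨ ∃ k : ℕ, 0 < k ∧ (s * x i) ^ k = 1 := by
    intro x hx
    obtain ⟨h0, s, hs, h1⟩ := (h x (hX0 x hx)).1 (hX2 x hx)
    exact ⟨s, hs, h0, h1⟩
  choose! s hs h0 h1 using hcyc
  have hcard : X.card ≤ (Fintype.piFinset fun _ : Fin N => insert (0 : L) hfin.toFinset).card := by
    refine Finset.card_le_card_of_injOn (fun x i => s x * x i.succ) ?_ ?_
    · intro x hx
      rw [Finset.mem_coe, Fintype.mem_piFinset]
      intro i
      rw [Finset.mem_insert]
      rcases h1 x hx i.succ with h2 | h2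
      · exact Or.inl h2
      · exact Or.inr (hfin.mem_toFinset.2 h2)
    · intro x hx y hy hxy
      refine hX1 x hx y hy ((s x)⁻¹ * s y) ?_
      funext i
      refine Fin.cases ?_ (fun i => ?_) i
      · rw [Pi.smul_apply, h0 x hx, h0 y hy, smul_zero]
      · have h2 : s x * x i.succ = s y * y i.succ := congrFun hxy i
        rw [Pi.smul_apply, smul_eq_mul, mul_assoc, ← h2, inv_mul_cancel_left₀ (hs x hx)]
  refine hcard.trans ?_
  rw [Fintype.card_piFinset, Finset.prod_const, Finset.card_univ, Fintype.card_fin]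
  refine Nat.pow_le_pow_left ?_ N
  refine (Finset.card_insert_le _ _).trans ?_
  rw [Set.ncard_eq_toFinset_card _ hfin, add_comm]

lemma good {K : Type u} [Field K] [NumberField K] {d : ℕ} (hd : 2 ≤ d) (c : Fin (d + 2) → 𝓞 K)
    (v : HeightOneSpectrum (𝓞 K)) (h0 : c 0 ≠ 0) (hv : c 0 ∈ v.asIdeal)
    (h : IrrMod v d fun i => c i.succ) : c ∉ Exceptional.{u, v} K d := by
  intro hc
  apply hc
  obtain ⟨h1, h2, h3⟩ := num_facts c v h
  intro N G hN hG
  have hlast : c (Fin.last d).succ ≠ 0 := fun h0 => h.1 (by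
    change c (Fin.last d).succ ∈ v.asIdeal
    rw [h0]
    exact zero_mem _)
  have hcl : (num c).coeff d = c (Fin.last d).succ :=
    pol_coeff_last (fun i : Fin (d + 1) => c i.succ)
  refine ⟨endo_hom (by omega) c G hG, ?_, ?_⟩
  · intro x hx
    have hinj : Function.Injective ((algebraMap K (AlgebraicClosure K)).comp
        (algebraMap (𝓞 K) K)) :=
      (algebraMap K (AlgebraicClosure K)).injective.comp
        (FaithfulSMul.algebraMap_injective (𝓞 K) K)
    rw [selfMap_eq] at hx
    have e0 : x 0 = 0 := by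
      have h4 := congrFun hx 0
      rw [pm_zero, Pi.zero_apply] at h4
      rcases mul_eq_zero.1 h4 with h5 | h5
      · exact absurd ((map_eq_zero_iff _ hinj).1 h5) h0
      · exact pow_eq_zero_iff (by omega) |>.1 h5
    rw [pm_hyper (by omega) _ _ _ x e0] at hx
    funext i
    have h4 := congrFun hx i
    rw [Pi.smul_apply, Pi.zero_apply, smul_eq_mul] at h4
    rcases mul_eq_zero.1 h4 with h5 | h5
    · rw [Polynomial.coeff_map, Fin.val_last, hcl] at h5
      exact absurd ((map_eq_zero_iff _ hinj).1 h5) hlast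
    · exact pow_eq_zero_iff (by omega) |>.1 h5
  · intro L _ _ _ hL
    have hNF : NumberField L := NumberField.of_module_finite K L
    have hcomp : (algebraMap K L).comp (algebraMap (𝓞 K) K) = algebraMap (𝓞 K) L :=
      (IsScalarTower.algebraMap_eq (𝓞 K) K L).symm
    have hinj : Function.Injective (algebraMap (𝓞 K) L) :=
      FaithfulSMul.algebraMap_injective (𝓞 K) L
    have hG' : ∀ i, (MvPolynomial.map (algebraMap (𝓞 K) L) (G i)).IsHomogeneous (d - 1) :=
      fun i => (hG i).map _
    have hla : ((num c).map (algebraMap (𝓞 K) L)).coeff ((Fin.last d : Fin (d + 1)) : ℕ) ≠ 0 := by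
      rw [Polynomial.coeff_map, Fin.val_last, hcl, Ne, map_eq_zero_iff _ hinj]
      exact hlast
    have hiff : ∀ x : Fin (N + 1) → L, x ≠ 0 →
        (IsPreperiodic (selfMap L (endo c G)) x ↔ Cyclotomic x) := by
      intro x hx
      rw [selfMap_eq, hcomp]
      by_cases hx0 : x 0 = 0
      · have := pm_hyper_iff hd (fun j : Fin (d + 1) =>
          ((num c).map (algebraMap (𝓞 K) L)).coeff j) hla (algebraMap (𝓞 K) L (c 0))
          (fun i => MvPolynomial.map (algebraMap (𝓞 K) L) (G i)) hG' x hx hx0
        exact this.trans ⟨fun h => ⟨hx0, h⟩, fun h => h.2⟩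
      · refine iff_of_false ?_ fun h => hx0 h.1
        rintro ⟨m, n, hmn, t, ht, heq⟩
        obtain ⟨q, hq⟩ := exists_place (L := L) v d hL
        refine pm_not_pre ((ovr v q).valuation L) hN (by omega)
          ((num c).map (algebraMap (𝓞 K) L)) (coeff_le v q (num c)) ?_ ?_ ?_ _
          (val_lt_one v q (c 0) hv) ?_ _ hG' ?_ x hx0 m n hmn t ht heq
        · rw [Polynomial.leadingCoeff_map_of_injective hinj]
          exact val_eq_one v q _ h2
        · rw [Polynomial.natDegree_map_eq_of_injective hinj, h1]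
        · intro y hy
          by_contra h5
          rw [not_le] at h5
          apply hq
          rw [← h1]
          exact dvd_inertia v (ovr v q) (num c) h2 h3 y hy h5
        · rwa [Ne, map_eq_zero_iff _ hinj]
        · intro i e
          rw [MvPolynomial.coeff_map, IsScalarTower.algebraMap_apply (𝓞 K) (𝓞 L) L]
          exact (ovr v q).valuation_le_one _
    exact ⟨hiff, bounded_of _ hiff⟩

end proof

/-- **Preperiodic points of integral perturbations of split polynomial maps.**  Let `K` be a number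
field and `d ≥ 2`.  For all vectors `(b, c₀, …, c_d)` of integers of `K` outside a set of density
zero, for all `N ≥ 1` and all forms `G₁, …, G_N` of degree `d - 1` in `N + 1` variables over `O_K`, the
map `φ_G = (b x₀^d : ∑ c_j x_i^j x₀^(d-j) + b x₀ G_i(x))` is an endomorphism of `P^N`, and for all
finite extensions `L` of `K` with `d ∤ [L : K]`, its preperiodic points in `P^N(L)` are the points
`(0 : x₁ : … : x_N)` whose coordinates are `0` or roots of unity up to a common factor; there are at
most `(1 + w)^N` of them, `w` the number of roots of unity in `L`. -/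
theorem result (K : Type u) [Field K] [NumberField K] (d : ℕ) (hd : 2 ≤ d) :
    DensityZero (Exceptional.{u, v} K d) ∧
      ∀ (J : Type w) [Fintype J] (ω : Module.Basis J ℤ (𝓞 K)),
        Tendsto (fun H : ℕ => ((Exceptional.{u, v} K d ∩ Box ω (d + 2) H).ncard : ℝ) /
          ((Box ω (d + 2) H).ncard : ℝ)) atTop (𝓝 0) := by
  have key : Pool.Agent.TH120.Sec.DZ (d + 2) (Exceptional.{u, v} K d) := by
    refine Pool.Agent.TH377.Dyn.DZ.mono
      (Pool.Agent.TH377.Dyn.dz_prime K d hd 1 one_ne_zero) ?_
    intro c hc hex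
    obtain ⟨v, -, h1, h2, h3⟩ := hex
    have h0 : c 0 ≠ 0 := by
      intro h0
      apply h2
      rw [h0]
      exact zero_mem _
    exact good hd c v h0 h1 h3 hc
  exact ⟨key, fun J _ ω => Pool.Agent.TH377.Dyn.box_tendsto _ key ω⟩

end Pool.Agent.Results.MP_13bc7b_nt.IntegralPerturbations
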