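import Mathlib
import Pool.Agent.H627.UB.Sg

/-!
# Preperiodic points of bounded degree of morphisms of projective space: a bound polynomial in the
height

For all `N ≥ 1`, `d ≥ 2` and `D ≥ 1` there are `C > 0` and `k` such that, for every number field
`K` of degree at most `D` and every morphism `f : ℙ^N → ℙ^N` of degree `d` defined over `K`, there
are at most `C (1 + h(f)) ^ k` points of `ℙ^N`, defined over number fields containing `K`, which
have degree at most `D` over `ℚ` and are preperiodic for `f` or have canonical height at most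
`1 / (C (1 + h(f)) ^ k)`.
-/

set_option autoImplicit false

namespace Pool.Agent.Results.MP_13bc7b_nt.PolynomialInHeight

open NumberField Module MvPolynomial Filter Topology
open scoped LinearAlgebra.Projectivization

noncomputable section

/-- `IsMorphism d F`: the polynomials `F_0, …, F_N` over `K` are homogeneous of degree `d` and
their only common zero in an algebraic closure of `K` is the origin, so that
`[F_0 : … : F_N]` is a morphism `ℙ^N → ℙ^N` of degree `d` defined over `K`. -/
def IsMorphism {K : Type} [Field K] {N : ℕ} (d : ℕ)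
    (F : Fin (N + 1) → MvPolynomial (Fin (N + 1)) K) : Prop :=
  (∀ i, (F i).IsHomogeneous d) ∧
    ∀ z : Fin (N + 1) → AlgebraicClosure K, (∀ i, aeval z (F i) = 0) → z = 0

/-- The polynomial map `z ↦ (F_0(z), …, F_N(z))` of `M ^ (N + 1)`, for a field `M` over `K`. -/
def evalMap {K : Type} [Field K] {M : Type} [Field M] [Algebra K M] {N : ℕ}
    (F : Fin (N + 1) → MvPolynomial (Fin (N + 1)) K) (z : Fin (N + 1) → M) : Fin (N + 1) → M :=
  fun i => aeval z (F i)

/-- `IsPreperiodic F P`: two different iterates of `[F_0 : … : F_N]` agree at the point `P` of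
`ℙ^N(M)`, i.e. their values at the coordinates of `P` are proportional. -/
def IsPreperiodic {K : Type} [Field K] {M : Type} [Field M] [Algebra K M] {N : ℕ}
    (F : Fin (N + 1) → MvPolynomial (Fin (N + 1)) K) (P : ℙ M (Fin (N + 1) → M)) : Prop :=
  ∃ m n : ℕ, m < n ∧ ∃ c : M, c ≠ 0 ∧ (evalMap F)^[n] P.rep = c • (evalMap F)^[m] P.rep

/-- `IsCanonicalHeight d F P h`: the canonical height of `P` for `[F_0 : … : F_N]` is `h`, i.e.
`h` is the limit of `h(f^n(P)) / d^n`, where the absolute logarithmic Weil height of a point of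
`ℙ^N(M)` is Mathlib's `Height.logHeight` (relative to `M`) divided by `[M : ℚ]`. -/
def IsCanonicalHeight {K : Type} [Field K] {M : Type} [Field M] [NumberField M] [Algebra K M]
    {N : ℕ} (d : ℕ) (F : Fin (N + 1) → MvPolynomial (Fin (N + 1)) K)
    (P : ℙ M (Fin (N + 1) → M)) (h : ℝ) : Prop :=
  Tendsto (fun n : ℕ => Height.logHeight ((evalMap F)^[n] P.rep) /
    ((finrank ℚ M : ℝ) * (d : ℝ) ^ n)) atTop (𝓝 h)

/-- `HasDegreeLE D P`: the point `P` of `ℙ^N(M)` has coordinates in a subfield of `M` of degree at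
most `D` over `ℚ`. -/
def HasDegreeLE {M : Type} [Field M] [NumberField M] {N : ℕ} (D : ℕ)
    (P : ℙ M (Fin (N + 1) → M)) : Prop :=
  ∃ E : IntermediateField ℚ M, finrank ℚ E ≤ D ∧ ∃ c : M, c ≠ 0 ∧ ∀ i, c * P.rep i ∈ E

/-- The height `h(f)` of `f = [F_0 : … : F_N]`: Mathlib's logarithmic height `Height.logHeight`
(relative to `K`) of the vector of all coefficients of all the `F_i`, indexed by the pairs
`(i, s)` with `s` an exponent of total degree `d`. -/
def mapHeight {K : Type} [Field K] [NumberField K] {N : ℕ} (d : ℕ)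
    (F : Fin (N + 1) → MvPolynomial (Fin (N + 1)) K) : ℝ :=
  Height.logHeight (fun p : Fin (N + 1) × {s : Fin (N + 1) →₀ ℕ //
    s ∈ (Finset.univ : Finset (Fin (N + 1))).finsuppAntidiag d} => (F p.1).coeff p.2.1)

/-- **Preperiodic points and points of small canonical height of bounded degree: a bound which is
polynomial in the height of the morphism.** -/
theorem result (N d D : ℕ) (hN : 1 ≤ N) (hd : 2 ≤ d) (hD : 1 ≤ D) :
    ∃ (C : ℝ) (k : ℕ), 0 < C ∧ ∀ (K : Type) [Field K] [NumberField K], finrank ℚ K ≤ D →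
      ∀ F : Fin (N + 1) → MvPolynomial (Fin (N + 1)) K, IsMorphism d F →
      ∀ (M : Type) [Field M] [NumberField M] [Algebra K M],
      ∀ T : Set (ℙ M (Fin (N + 1) → M)),
      T = {P | HasDegreeLE D P ∧ (IsPreperiodic F P ∨ ∃ h : ℝ, IsCanonicalHeight d F P h ∧
        h ≤ 1 / (C * (1 + mapHeight d F) ^ k))} →
      T.Finite ∧ (T.ncard : ℝ) ≤ C * (1 + mapHeight d F) ^ k := by
  obtain ⟨C, k, hC, h⟩ := H627.UB.polyS N d D hN hd hD
  refine ⟨C, k, hC, fun K _ _ hKD F hF M _ _ _ T hT => ?_⟩
  classical
  have hS : ∀ S : Finset (ℙ M (Fin (N + 1) → M)), (S : Set (ℙ M (Fin (N + 1) → M))) ⊆ T →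
      (S.card : ℝ) ≤ C * (1 + mapHeight d F) ^ k := by
    intro S hST
    have hinj : Function.Injective
        (Projectivization.rep : ℙ M (Fin (N + 1) → M) → (Fin (N + 1) → M)) := by
      intro P Q hPQ
      rw [← Projectivization.mk_rep P, ← Projectivization.mk_rep Q]
      congr 1
    have h1 := h K hKD F hF.1 hF.2 M (S.image Projectivization.rep) ?_ ?_ ?_ ?_
    · rwa [Finset.card_image_of_injective S hinj] at h1
    · intro x hx
      obtain ⟨P, -, rfl⟩ := Finset.mem_image.mp hx
      exact P.rep_nonzero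
    · intro x hx y hy c hxy
      obtain ⟨P, -, rfl⟩ := Finset.mem_image.mp hx
      obtain ⟨Q, -, rfl⟩ := Finset.mem_image.mp hy
      have hPQ : P = Q := by
        rw [← Projectivization.mk_rep P, ← Projectivization.mk_rep Q,
          Projectivization.mk_eq_mk_iff']
        exact ⟨c, hxy.symm⟩
      rw [hPQ]
    · intro x hx
      obtain ⟨P, hP, rfl⟩ := Finset.mem_image.mp hx
      have hPT := hST hP
      rw [hT] at hPT
      exact hPT.1
    · intro x hx
      obtain ⟨P, hP, rfl⟩ := Finset.mem_image.mp hx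
      have hPT := hST hP
      rw [hT] at hPT
      exact hPT.2
  have hfin : T.Finite := by
    by_contra hinf
    obtain ⟨n, hn⟩ := exists_nat_gt (C * (1 + mapHeight d F) ^ k)
    obtain ⟨S, hST, hcard⟩ := (show T.Infinite from hinf).exists_subset_card_eq n
    have := hS S hST
    rw [hcard] at this
    linarith
  refine ⟨hfin, ?_⟩
  rw [Set.ncard_eq_toFinset_card T hfin]
  exact hS _ (by simp)

end

end Pool.Agent.Results.MP_13bc7b_nt.PolynomialInHeight
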