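import Pool.Agent.TH78.TP.Count
import Pool.Agent.TH78.TP.Place

set_option autoImplicit false

open Finset MvPolynomial NumberField Pool.Agent.H504R2 Pool.Agent.H504D Pool.Agent.H504E
  Pool.Agent.TH78.TP

namespace Pool.Agent.Results.MP_13bc7b_nt.TwoPlacesAnyDegree

/-- `ExcLine σ τ d g`: the pair of binary forms `g` of degree `d` belongs to the compositional
semigroup generated by
* the invertible linear substitutions (elements of `PGL₂(K)`),
* the power maps `[x₀ : x₁] ↦ [x₀^m : x₁^m]` with `m` prime to `σ`,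
* the Dickson (Chebyshev) maps `[x₀ : x₁] ↦ [D_m(x₀, a x₁²) : x₁^m]`, `a ∈ K`, with `m` prime to `τ`.
The number of factors and all the coefficients are arbitrary. -/
inductive ExcLine {K : Type} [Field K] (σ τ : ℕ) : ℕ → (Fin 2 → MvPolynomial (Fin 2) K) → Prop
  | linear (A : Matrix (Fin 2) (Fin 2) K) (hA : A.det ≠ 0) :
      ExcLine σ τ 1 (fun i => ∑ j, C (A i j) * X j)
  | power (m : ℕ) (hm : 1 ≤ m) (h : Nat.Coprime m σ) : ExcLine σ τ m (fun i => X i ^ m)
  | dickson (m : ℕ) (a : K) (hm : 1 ≤ m) (h : Nat.Coprime m τ) :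
      ExcLine σ τ m ![(Polynomial.dickson 1 (C a * X 1 ^ 2) m).eval (X 0), X 1 ^ m]
  | comp (d e : ℕ) (f g : Fin 2 → MvPolynomial (Fin 2) K) (hf : ExcLine σ τ d f)
      (hg : ExcLine σ τ e g) : ExcLine σ τ (e * d) (fun i => bind₁ g (f i))

/-- `ExcPoly σ τ d F`: the polynomial `F` in one variable, of degree `d`, is a composition of affine
polynomials `a X + b`, of powers `X ^ m` with `m` prime to `σ`, and of Dickson polynomials
`D_m(X, a)` with `m` prime to `τ`. -/
inductive ExcPoly {K : Type} [Field K] (σ τ : ℕ) : ℕ → Polynomial K → Prop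
  | affine (a b : K) (ha : a ≠ 0) : ExcPoly σ τ 1 (Polynomial.C a * Polynomial.X + Polynomial.C b)
  | power (m : ℕ) (hm : 1 ≤ m) (h : Nat.Coprime m σ) : ExcPoly σ τ m (Polynomial.X ^ m)
  | dickson (m : ℕ) (a : K) (hm : 1 ≤ m) (h : Nat.Coprime m τ) :
      ExcPoly σ τ m (Polynomial.dickson 1 a m)
  | comp (d e : ℕ) (F G : Polynomial K) (hF : ExcPoly σ τ d F) (hG : ExcPoly σ τ e G) :
      ExcPoly σ τ (d * e) (F.comp G)

/-- `ExcSkew σ τ d f`: the forms `f₀, …, f_{N+1}` of degree `d` are an iterated skew product over the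
projective line: `(f₀, f₁)` is a pair of forms in `x₀, x₁` in the class `ExcLine`, and for `i ≥ 2`
the form `f_i` involves only `x₀, …, x_i` and is, for all values of `x₀, …, x_{i-1}` in `K`, as a
polynomial in `x_i` in the class `ExcPoly`. -/
structure ExcSkew {K : Type} [Field K] {N : ℕ} (σ τ d : ℕ)
    (f : Fin (N + 2) → MvPolynomial (Fin (N + 2)) K) : Prop where
  homogeneous : ∀ i, (f i).IsHomogeneous d
  base : ∃ g : Fin 2 → MvPolynomial (Fin 2) K, ExcLine σ τ d g ∧
    f 0 = rename (![0, 1] : Fin 2 → Fin (N + 2)) (g 0) ∧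
    f 1 = rename (![0, 1] : Fin 2 → Fin (N + 2)) (g 1)
  triangular : ∀ i : Fin (N + 2), 2 ≤ (i : ℕ) → (f i).vars ⊆ Finset.Iic i
  fibre : ∀ i : Fin (N + 2), 2 ≤ (i : ℕ) → ∀ x : Fin (N + 2) → K,
    ExcPoly σ τ d (aeval (Function.update (fun j => Polynomial.C (x j)) i Polynomial.X) (f i))

variable {K : Type} [Field K] {N σ τ d : ℕ}

lemma eval_bind (g : Fin 2 → MvPolynomial (Fin 2) K) (P : MvPolynomial (Fin 2) K) (x : Fin 2 → K) :
    eval x (bind₁ g P) = eval (fun j => eval x (g j)) P := by
  have := MvPolynomial.aeval_bind₁ (S := K) x g P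
  simpa [MvPolynomial.coe_aeval_eq_eval] using this

theorem ExcLine.chain {g : Fin 2 → MvPolynomial (Fin 2) K} (h : ExcLine σ τ d g) :
    BChain σ τ d (fun (x : Fin 2 → K) i => eval x (g i)) := by
  induction h with
  | linear A hA =>
    refine ⟨1, fun _ => 1, fun _ => 0, fun _ => A, one_pos, fun _ => le_rfl, fun _ => hA, by simp, ?_, ?_⟩
    · intro _
      exact Or.inl ⟨rfl, Nat.coprime_one_left σ⟩
    · intro x
      show _ = stage 1 0 A x
      unfold stage
      ext i
      simp [Matrix.mulVec, dotProduct, dk]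
  | power m hm h =>
    refine ⟨1, fun _ => m, fun _ => 0, fun _ => 1, one_pos, fun _ => hm, fun _ => by simp, by simp, ?_, ?_⟩
    · intro _
      exact Or.inl ⟨rfl, h⟩
    · intro x
      show _ = stage m 0 1 x
      unfold stage
      rw [Matrix.one_mulVec]
      obtain ⟨m', rfl⟩ : ∃ m', m = m' + 1 := ⟨m - 1, by omega⟩
      rw [zero_mul, dk_zero]
      ext i
      fin_cases i <;> simp
  | dickson m a hm h =>
    refine ⟨1, fun _ => m, fun _ => a, fun _ => 1, one_pos, fun _ => hm, fun _ => by simp, by simp, ?_, ?_⟩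
    · intro _
      exact Or.inr h
    · intro x
      show _ = stage m a 1 x
      unfold stage
      rw [Matrix.one_mulVec]
      ext i
      fin_cases i
      · show eval x ((Polynomial.dickson 1 (C a * X 1 ^ 2) m).eval (X 0)) = dk (a * x 1 ^ 2) (x 0) m
        rw [← dk_eq_dickson, map_dk]
        simp
      · simp
  | comp d e f g hf hg ihf ihg =>
    have h1 := ihf.comp ihg
    have h2 : (fun (x : Fin 2 → K) i => eval x (bind₁ g (f i))) =
        fun x => (fun (x : Fin 2 → K) i => eval x (f i)) ((fun (x : Fin 2 → K) i => eval x (g i)) x) := by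
      funext x i
      exact eval_bind g (f i) x
    rw [h2]
    exact h1

theorem ExcLine.no_zero {L : Type} [Field L] [Algebra K L] {g : Fin 2 → MvPolynomial (Fin 2) K}
    (h : ExcLine σ τ d g) : ∀ x : Fin 2 → L, (∀ i, aeval x (g i) = 0) → x = 0 := by
  induction h with
  | linear A hA =>
    intro x hx
    have h1 : (A.map (algebraMap K L)).det ≠ 0 := by
      rw [← RingHom.mapMatrix_apply, ← RingHom.map_det]
      exact (map_ne_zero _).2 hA
    apply Matrix.eq_zero_of_mulVec_eq_zero h1
    ext i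
    have := hx i
    rw [map_sum] at this
    simpa [Matrix.mulVec, dotProduct] using this
  | power m hm h =>
    intro x hx
    ext i
    have := hx i
    rw [map_pow, aeval_X] at this
    exact eq_zero_of_pow_eq_zero this
  | dickson m a hm h =>
    intro x hx
    obtain ⟨m', rfl⟩ : ∃ m', m = m' + 1 := ⟨m - 1, by omega⟩
    have h1 : x 1 = 0 := by
      have := hx 1
      simp only [Matrix.cons_val_one, Matrix.cons_val_fin_one, map_pow, aeval_X] at this
      exact eq_zero_of_pow_eq_zero this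
    have h0 : x 0 = 0 := by
      have h2 := hx 0
      simp only [Matrix.cons_val_zero] at h2
      rw [← dk_eq_dickson] at h2
      have h3 := map_dk (aeval x : MvPolynomial (Fin 2) K →ₐ[K] L).toRingHom (C a * X 1 ^ 2) (X 0) (m' + 1)
      have h4 : (aeval x : MvPolynomial (Fin 2) K →ₐ[K] L).toRingHom (C a * X 1 ^ 2) = 0 := by
        simp [h1]
      have h5 : (aeval x : MvPolynomial (Fin 2) K →ₐ[K] L).toRingHom (X 0) = x 0 := by simp
      rw [h4, h5, dk_zero] at h3
      have h6 : (aeval x : MvPolynomial (Fin 2) K →ₐ[K] L).toRingHom (dk (C a * X 1 ^ 2) (X 0) (m' + 1)) = 0 := h2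
      rw [h6] at h3
      exact eq_zero_of_pow_eq_zero h3.symm
    ext i
    fin_cases i
    · exact h0
    · exact h1
  | comp d e f g hf hg ihf ihg =>
    intro x hx
    apply ihg
    have h1 := ihf (fun i => aeval x (g i)) (by
      intro i
      rw [← MvPolynomial.aeval_bind₁]
      exact hx i)
    intro i
    exact congrFun h1 i

lemma ExcPoly.exc {F : Polynomial K} (h : ExcPoly σ τ d F) : EPoly σ τ d F := by
  induction h with
  | affine a b ha => exact EPoly.affine a b ha
  | power m hm h => exact EPoly.power m hm h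
  | dickson m a hm h => exact EPoly.dickson m a hm h
  | comp d e F G hF hG ihF ihG => exact EPoly.comp d e F G ihF ihG

lemma eval_fibre (f : MvPolynomial (Fin (N + 2)) K) (i : Fin (N + 2)) (x : Fin (N + 2) → K) (u : K) :
    (aeval (Function.update (fun j => Polynomial.C (x j)) i Polynomial.X) f : Polynomial K).eval u =
      eval (Function.update x i u) f := by
  have h := MvPolynomial.comp_aeval_apply
    (Function.update (fun j => Polynomial.C (x j)) i Polynomial.X : Fin (N + 2) → Polynomial K)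
    (Polynomial.aeval u : Polynomial K →ₐ[K] K) f
  rw [Polynomial.coe_aeval_eq_eval] at h
  rw [h, ← MvPolynomial.coe_aeval_eq_eval, RingHom.coe_coe]
  congr 2
  funext j
  by_cases hj : j = i
  · subst hj; simp
  · simp [Function.update_of_ne hj]

/-- the class consists of skew products in the sense of the helper files -/
theorem ExcSkew.skew {f : Fin (N + 2) → MvPolynomial (Fin (N + 2)) K} (h : ExcSkew σ τ d f) :
    Skew σ τ d (fun (x : Fin (N + 2) → K) i => eval x (f i)) := by
  obtain ⟨g, hg, h0, h1⟩ := h.base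
  have htwo : ∀ x : Fin (N + 2) → K, two (fun i => eval x (f i)) = fun i => eval (two x) (g i) := by
    intro x
    have hc : (x ∘ (![0, 1] : Fin 2 → Fin (N + 2))) = two x := by
      funext j
      fin_cases j <;> rfl
    ext j
    fin_cases j
    · show eval x (f 0) = eval (two x) (g 0)
      rw [h0, eval_rename, hc]
    · show eval x (f 1) = eval (two x) (g 1)
      rw [h1, eval_rename, hc]
  refine ⟨?_, ?_, ⟨_, hg.chain, htwo⟩, ?_⟩
  · intro s x
    funext i
    show eval (s • x) (f i) = s ^ d * eval x (f i)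
    have h2 : (s • x) = fun j => s * x j := rfl
    rw [eval_eq, eval_eq, Finset.mul_sum]
    apply Finset.sum_congr rfl
    intro m hm
    have hdeg : ∑ j, m j = d := by
      have := h.homogeneous i (mem_support_iff.1 hm)
      rw [Finsupp.weight_apply, Finsupp.sum_fintype] at this
      · simpa using this
      · intro j; simp
    have h3 : ∏ j ∈ m.support, (s • x) j ^ m j = (∏ j ∈ m.support, s ^ m j) * ∏ j ∈ m.support, x j ^ m j := by
      rw [← Finset.prod_mul_distrib]
      apply Finset.prod_congr rfl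
      intro j _
      rw [Pi.smul_apply, smul_eq_mul, mul_pow]
    have h4 : ∏ j ∈ m.support, s ^ m j = s ^ d := by
      rw [Finset.prod_pow_eq_pow_sum]
      congr 1
      rw [← hdeg]
      apply Finset.sum_subset (Finset.subset_univ _)
      intro j _ hj
      exact Finsupp.notMem_support_iff.1 hj
    rw [h3, h4]
    ring
  · intro i hi x y hxy j hj
    by_cases hj2 : 2 ≤ (j : ℕ)
    · show eval x (f j) = eval y (f j)
      apply MvPolynomial.eval₂Hom_congr' rfl _ rfl
      intro l hl _
      apply hxy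
      have h3 := h.triangular j hj2 hl
      rw [Finset.mem_Iic] at h3
      have : (l : ℕ) ≤ j := h3
      omega
    · have e : two x = two y := by
        ext l
        fin_cases l
        · exact hxy 0 (by simp)
        · exact hxy 1 (by simpa using hi)
      have h3 := htwo x
      rw [e, ← htwo y] at h3
      have hj' : j = 0 ∨ j = 1 := by
        rcases Nat.lt_or_ge (j : ℕ) 1 with h | h
        · left; exact Fin.ext (by rw [Fin.val_zero]; omega)
        · right; exact Fin.ext (by rw [Fin.val_one]; omega)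
      rcases hj' with rfl | rfl
      · exact congrFun h3 0
      · exact congrFun h3 1
  · intro i hi x
    exact ⟨_, (h.fibre i hi x).exc, fun u => (eval_fibre (f i) i x u).symm⟩

/-- the maps in the class are morphisms: the components have no common zero except the origin -/
theorem ExcSkew.no_zero [Infinite K] (hd : 1 ≤ d) {f : Fin (N + 2) → MvPolynomial (Fin (N + 2)) K}
    (h : ExcSkew σ τ d f) :
    ∀ x : Fin (N + 2) → AlgebraicClosure K, (∀ i, aeval x (f i) = 0) → x = 0 := by
  intro x hx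
  obtain ⟨g, hg, h0, h1⟩ := h.base
  have hc : (x ∘ (![0, 1] : Fin 2 → Fin (N + 2))) = two x := by
    funext j
    fin_cases j <;> rfl
  have htwo : two x = 0 := by
    apply hg.no_zero
    intro j
    fin_cases j
    · have := hx 0
      rw [h0, aeval_rename, hc] at this
      exact this
    · have := hx 1
      rw [h1, aeval_rename, hc] at this
      exact this
  have key : ∀ n : ℕ, ∀ i : Fin (N + 2), (i : ℕ) = n → x i = 0 := by
    intro n
    induction n using Nat.strong_induction_on with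
    | _ n ih =>
      intro i hi
      by_cases hi2 : 2 ≤ (i : ℕ)
      · have hprev : ∀ j : Fin (N + 2), j < i → x j = 0 := fun j hj => ih j (by
          have : (j : ℕ) < i := hj
          omega) j rfl
        set P : Polynomial K :=
          aeval (Function.update (fun j => Polynomial.C ((0 : Fin (N + 2) → K) j)) i Polynomial.X) (f i) with hP
        have hPd : P.natDegree = d := EPoly.natDegree (h.fibre i hi2 0).exc
        have hPu : P = Polynomial.C (P.eval 1) * Polynomial.X ^ d := by
          apply Polynomial.funext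
          intro u
          rw [Polynomial.eval_mul, Polynomial.eval_C, Polynomial.eval_pow, Polynomial.eval_X, hP,
            eval_fibre, eval_fibre]
          have h2 := congrFun (h.skew.smul u (Function.update 0 i 1)) i
          have h3 : u • (Function.update (0 : Fin (N + 2) → K) i 1) =
              Function.update (0 : Fin (N + 2) → K) i u := by
            funext j
            by_cases hj : j = i
            · subst hj; simp
            · simp [Function.update_of_ne hj]
          rw [h3] at h2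
          have h4 : eval (Function.update (0 : Fin (N + 2) → K) i u) (f i) =
              u ^ d * eval (Function.update (0 : Fin (N + 2) → K) i 1) (f i) := h2
          rw [h4]; ring
        have hc1 : P.eval 1 ≠ 0 := by
          intro h3
          rw [h3, map_zero, zero_mul] at hPu
          rw [hPu, Polynomial.natDegree_zero] at hPd
          omega
        have hval : aeval x (f i) = Polynomial.aeval (x i) P := by
          rw [hP]
          have h5 := MvPolynomial.comp_aeval_apply
            (Function.update (fun j => Polynomial.C ((0 : Fin (N + 2) → K) j)) i Polynomial.X :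
              Fin (N + 2) → Polynomial K)
            (Polynomial.aeval (x i) : Polynomial K →ₐ[K] AlgebraicClosure K) (f i)
          rw [h5]
          apply MvPolynomial.eval₂Hom_congr' rfl _ rfl
          intro l hl _
          have h6 := h.triangular i hi2 hl
          rw [Finset.mem_Iic] at h6
          rcases h6.lt_or_eq with h7 | h7
          · rw [hprev l h7, Function.update_of_ne h7.ne]
            simp
          · subst h7
            simp
        have h8 := hx i
        rw [hval, hPu] at h8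
        simp only [map_mul, Polynomial.aeval_C, map_pow, Polynomial.aeval_X] at h8
        rcases mul_eq_zero.1 h8 with h9 | h9
        · exact absurd ((map_eq_zero _).1 h9) hc1
        · exact eq_zero_of_pow_eq_zero h9
      · have hj' : i = 0 ∨ i = 1 := by
          rcases Nat.lt_or_ge (i : ℕ) 1 with h | h
          · left; exact Fin.ext (by rw [Fin.val_zero]; omega)
          · right; exact Fin.ext (by rw [Fin.val_one]; omega)
        rcases hj' with rfl | rfl
        · exact congrFun htwo 0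
        · exact congrFun htwo 1
  funext i
  exact key i i rfl

/-- **Uniform boundedness of preperiodic points over number fields of arbitrary degree.**
Let `q₁`, `q₂` be coprime and put `σ = q₁ q₂ (q₁ - 1) (q₂ - 1)`, `τ = q₁ q₂ (q₁² - 1) (q₂² - 1)`.
For all `N ≥ 0` and `d ≥ 2` there is a constant `C` such that for every number field `K`, of ARBITRARY
degree, which has two primes of norms `q₁` and `q₂`, and every morphism `f` of degree `d` of the
projective space of dimension `N + 1` over `K` in the class `ExcSkew σ τ d`, at most `C` `K`-rational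
points are preperiodic. -/
theorem result (q₁ q₂ N d : ℕ) (hq : Nat.Coprime q₁ q₂) (hd : 2 ≤ d) :
    ∃ C : ℕ, ∀ (K : Type) [Field K] [NumberField K] (P₁ P₂ : Ideal (𝓞 K)),
      P₁.IsPrime → P₂.IsPrime → Ideal.absNorm P₁ = q₁ → Ideal.absNorm P₂ = q₂ →
      ∀ f : Fin (N + 2) → MvPolynomial (Fin (N + 2)) K,
        ExcSkew (q₁ * q₂ * (q₁ - 1) * (q₂ - 1)) (q₁ * q₂ * (q₁ ^ 2 - 1) * (q₂ ^ 2 - 1)) d f →
        (∀ x : Fin (N + 2) → AlgebraicClosure K, (∀ i, aeval x (f i) = 0) → x = 0) ∧
        ∀ S : Finset (Fin (N + 2) → K),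
          (∀ x ∈ S, x ≠ 0) →
          (∀ x ∈ S, ∀ y ∈ S, ∀ c : K, x = c • y → x = y) →
          (∀ x ∈ S, ∃ m n : ℕ, m < n ∧ ∃ c : K, c ≠ 0 ∧
              (fun v : Fin (N + 2) → K => fun i => MvPolynomial.eval v (f i))^[n] x =
                c • (fun v : Fin (N + 2) → K => fun i => MvPolynomial.eval v (f i))^[m] x) →
          S.card ≤ C := by
  refine ⟨cnt (d ^ (TH78.TP.B1 d q₁ q₂ * TH78.TP.B2 q₁ q₂ ^ N).factorial) N, ?_⟩
  intro K _ _ P₁ P₂ hP₁ hP₂ hn₁ hn₂ f hf
  have : Infinite K := Infinite.of_injective (algebraMap ℚ K) (algebraMap ℚ K).injective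
  have hb : ∀ (P P' : Ideal (𝓞 K)), P'.IsPrime → Nat.Coprime (Ideal.absNorm P) (Ideal.absNorm P') →
      P ≠ ⊥ := by
    rintro P P' hP' hc rfl
    rw [Ideal.absNorm_bot, Nat.coprime_zero_left] at hc
    exact hP'.ne_top (Ideal.absNorm_eq_one_iff.1 hc)
  have hb₁ : P₁ ≠ ⊥ := hb P₁ P₂ hP₂ (by rw [hn₁, hn₂]; exact hq)
  have hb₂ : P₂ ≠ ⊥ := hb P₂ P₁ hP₁ (by rw [hn₁, hn₂]; exact hq.symm)
  obtain ⟨p₁, hp₁, hpP₁⟩ := exists_prime_mem K P₁ hP₁ hb₁
  obtain ⟨p₂, hp₂, hpP₂⟩ := exists_prime_mem K P₂ hP₂ hb₂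
  obtain ⟨v₁, hv₁, ⟨f₁, hf₁⟩, -⟩ := place_core K P₁ hP₁ p₁ hp₁ hpP₁
  obtain ⟨v₂, hv₂, ⟨f₂, hf₂⟩, -⟩ := place_core K P₂ hP₂ p₂ hp₂ hpP₂
  rw [hn₁] at hv₁ hf₁
  rw [hn₂] at hv₂ hf₂
  have hf₁0 : f₁ ≠ 0 := by
    rintro rfl
    rw [pow_zero, ← hn₁, Ideal.absNorm_eq_one_iff] at hf₁
    exact hP₁.ne_top hf₁
  have hf₂0 : f₂ ≠ 0 := by
    rintro rfl
    rw [pow_zero, ← hn₂, Ideal.absNorm_eq_one_iff] at hf₂
    exact hP₂.ne_top hf₂
  have hpq₁ : p₁ ∣ q₁ := by rw [hf₁]; exact dvd_pow_self _ hf₁0
  have hpq₂ : p₂ ∣ q₂ := by rw [hf₂]; exact dvd_pow_self _ hf₂0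
  have hne : p₁ ≠ p₂ := by
    rintro rfl
    exact hp₁.one_lt.ne' (Nat.dvd_one.1 (hq ▸ Nat.dvd_gcd hpq₁ hpq₂))
  have g₁ : TH78.TP.GoodPlace (q₁ * q₂ * (q₁ - 1) * (q₂ - 1)) (q₁ * q₂ * (q₁ ^ 2 - 1) * (q₂ ^ 2 - 1)) v₁ p₁ q₁ :=
    ⟨hv₁, hp₁, ⟨f₁, hf₁⟩, fun m hm =>
      ⟨hm.coprime_dvd_right (hpq₁.trans ⟨q₂ * (q₁ - 1) * (q₂ - 1), by ring⟩),
        hm.coprime_dvd_right ⟨q₁ * q₂ * (q₂ - 1), by ring⟩⟩, fun m hm =>
      ⟨hm.coprime_dvd_right (hpq₁.trans ⟨q₂ * (q₁ ^ 2 - 1) * (q₂ ^ 2 - 1), by ring⟩),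
        hm.coprime_dvd_right ⟨q₁ * q₂ * (q₂ ^ 2 - 1), by ring⟩⟩⟩
  have g₂ : TH78.TP.GoodPlace (q₁ * q₂ * (q₁ - 1) * (q₂ - 1)) (q₁ * q₂ * (q₁ ^ 2 - 1) * (q₂ ^ 2 - 1)) v₂ p₂ q₂ :=
    ⟨hv₂, hp₂, ⟨f₂, hf₂⟩, fun m hm =>
      ⟨hm.coprime_dvd_right (hpq₂.trans ⟨q₁ * (q₁ - 1) * (q₂ - 1), by ring⟩),
        hm.coprime_dvd_right ⟨q₁ * q₂ * (q₁ - 1), by ring⟩⟩, fun m hm =>
      ⟨hm.coprime_dvd_right (hpq₂.trans ⟨q₁ * (q₁ ^ 2 - 1) * (q₂ ^ 2 - 1), by ring⟩),
        hm.coprime_dvd_right ⟨q₁ * q₂ * (q₁ ^ 2 - 1), by ring⟩⟩⟩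
  exact ⟨hf.no_zero (by omega), fun S h0 h1 h2 => skew_bound d hd g₁ g₂ hne _ hf.skew S h0 h1 h2⟩

end Pool.Agent.Results.MP_13bc7b_nt.TwoPlacesAnyDegree
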